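import Pool.Agent.Helper91.FS.Goals

/-! # FS-R3T: the levels `m ≥ 0.47 n` (adapted from `Pool/Agent/Helper84/NF/R3.lean`) -/

set_option autoImplicit false

namespace Pool.Agent.Helper95.FS

open Finset Pool.Agent.Helper49.NF Pool.Agent.Helper91.FS
open Pool.Agent.Helper47.SR (Grp mv lev wt Ew W IsInv up dn StarAt HalfStarAt Goal_STAN)

theorem goal_R3T (hNSB : Goal_NSBT) (hRED : Goal_REDT) (hF1 : Goal_F1N) (hT3 : Goal_T3)
    (hSTAN : Goal_STAN) (hN2H : Goal_N2H) (hN3 : Goal_N3) : Goal_R3T := by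
  intro t ht
  obtain ⟨n₁, h₁⟩ := hN2H
  obtain ⟨n₂, h₂⟩ := hN3
  obtain ⟨n₃, h₃⟩ := hF1 t ht
  refine ⟨max n₁ (max n₂ n₃), ?_⟩
  intro n hn L f G hG hL hf m htm hm hmn
  have hn1 : n₁ ≤ n := le_trans (le_max_left _ _) hn
  have hn2 : n₂ ≤ n := le_trans (le_trans (le_max_left _ _) (le_max_right _ _)) hn
  have hn3 : n₃ ≤ n := le_trans (le_trans (le_max_right _ _) (le_max_right _ _)) hn
  have hL100 : L ^ 100 ≤ n :=
    (Nat.pow_le_pow_right hG.L1 (by omega : 100 ≤ 1000 * t)).trans hL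
  have hf1 : (F1 t n f) ^ 5 ≤ n ^ 4 := (h₃ n hn3 f hf).1
  obtain ⟨a1, a2, a3⟩ := h₂ n hn2 m L (F1 t n f) hm hmn hG.L1 hL100 hf1
  have a4 := h₁ n hn1 m L (F1 t n f) a3 hmn hG.L1 hL100 hf1
  have hm1 : 1 ≤ m := le_trans ht htm
  have hLg : 1 ≤ Lg n := Nat.clog_pos (by norm_num) (by omega)
  obtain ⟨b1, b2, b3⟩ := hNSB t n L f G hG m htm hmn
  refine hRED t n L f m G hG htm hmn ((Nat.mul_le_mul_left n b2).trans a4) ?_
  intro S Y hF h2 h3 h4
  have hTT : TT G m ≤ (n + 1) * Bb n L (F1 t n f) m 2 := by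
    unfold TT
    calc (m + 1) * Ew G (lev n (m + 1)) + (n - m) * Ew G (lev n m)
        ≤ (m + 1) * Bb n L (F1 t n f) m 2 + (n - m) * Bb n L (F1 t n f) m 2 :=
          Nat.add_le_add (Nat.mul_le_mul_left _ b3) (Nat.mul_le_mul_left _ b2)
      _ = (m + 1 + (n - m)) * Bb n L (F1 t n f) m 2 := by ring
      _ = (n + 1) * Bb n L (F1 t n f) m 2 := by
          congr 1
          omega
  have hYW : #Y ≤ W G Y := by
    unfold W
    rw [Finset.card_eq_sum_ones]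
    exact Finset.sum_le_sum fun A _ => by omega
  have hY : #Y ≤ (m + n / 6).choose m := by
    have hlt := hF.lt
    have : 2 * TT G m ≤ 128 * (n + 1) * Bb n L (F1 t n f) m 2 := by
      calc 2 * TT G m ≤ 2 * ((n + 1) * Bb n L (F1 t n f) m 2) := Nat.mul_le_mul_left _ hTT
        _ ≤ 128 * ((n + 1) * Bb n L (F1 t n f) m 2) := Nat.mul_le_mul_right _ (by norm_num)
        _ = 128 * (n + 1) * Bb n L (F1 t n f) m 2 := by ring
    omega
  have hT := hT3 n m (n / 6) G Y hm1 hF.Y1 hY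
    (((Nat.mul_le_mul_left 64 (b1 3 (by norm_num) (by omega)).2).trans a2).trans h2) (by omega)
  have hS := hSTAN n G m (by omega) S hF.S1 hF.Si
  unfold Sat
  omega

end Pool.Agent.Helper95.FS
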